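import Pool.Agent.Run7.h893.HO.Odd

/-!
# Periods of hypergeometric motives of Calabi–Yau type of arbitrary rank: for almost all fibres all relations of bounded
degree between the periods come from the orthogonal and the symplectic torsors

Let `β_1, …, β_m` be rational numbers and `θ = z d/dz`. We consider the hypergeometric operators `θ^n - z Q(θ)` of odd
order `n = 2m + 1` with `Q(x) = (x + 1/2) ∏_j ((x + 1/2)^2 - β_j^2)`, `β_j ∉ 1/2 + ℤ`. The exponents `1/2, 1/2 ± β_j` at
infinity are symmetric, the monodromy at `z = 0` is maximally unipotent, and the monodromy at `z = 1` is a reflection. For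
`m = 1` and `β = 0, 1/6, 1/4, 1/3` these are the operators of the families of K3 surfaces with Picard number `19` which
are mirror to polarised K3 surfaces, for `m = 2` and `β = (1/3, 1/6)` it is the operator of the mirror family of the
sextic fourfolds. The Frobenius method gives the basis `f_0, …, f_{n-1}` of solutions. The periods of the fibres of the
family of motives over `ℚ(z)` near `z = 0` are linear combinations of the numbers `(θ^i f_j)(z)` with constant
coefficients (the periods of the limit motive).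

The Lagrange identity gives the symmetric form `B(z)` with the entries `B(z)_{ij}`, the coefficient of `x^i y^j` in
`(x^n + y^n) / (x + y) - z (Q(x) + Q(y)) / (x + y + 1)`, and `Y(z)ᵀ B(z) Y(z) = B(0)` for the matrix `Y = (θ^i f_j)`.
The set `T(z)` of the matrices `X` with `Xᵀ B(z) X = B(0)` is a torsor of the orthogonal group of `B(0)`. We prove that
for almost all tuples of fibres `z = 1 / t_i` all relations of bounded degree, over any finite dimensional space of
constants, vanish on the product of the torsors: the differential Galois group is the full orthogonal group, and the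
specialisations of the functional relations generate the relations of bounded degree. The operators of even order
`θ^(2m) - z ∏_j (θ^2 - β_j^2)`, `β_j ∉ ℤ`, for which the monodromy is symplectic, are admitted in the same tuples.
-/

set_option autoImplicit false

open PowerSeries Pool.Agent.Y119.HZ

namespace Pool.Agent.Results.MP_57341d_ag.HypergeometricOrthogonal

/-- A hypergeometric equation `θ^n f = z Q(θ) f` of Calabi–Yau type, given by the parity of the order and by `m` rational
numbers `β_j`. -/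
structure Eqn where
  odd : Bool
  m : ℕ
  β : Fin m → ℚ

/-- the order: `2m + 1` or `2m` -/
def Eqn.order (e : Eqn) : ℕ := match e.odd with
  | true => 2 * e.m + 1
  | false => 2 * e.m

/-- the polynomial `Q`: `(x + 1/2) ∏_j ((x + 1/2)^2 - β_j^2)` for odd and `∏_j (x^2 - β_j^2)` for even order -/
noncomputable def Eqn.poly (e : Eqn) : Polynomial ℚ := match e.odd with
  | true => (Polynomial.X + Polynomial.C (1 / 2)) *
      ∏ j, ((Polynomial.X + Polynomial.C (1 / 2)) ^ 2 - Polynomial.C (e.β j ^ 2))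
  | false => ∏ j, (Polynomial.X ^ 2 - Polynomial.C (e.β j ^ 2))

/-- The exponents at infinity are not integers: `β_j ∉ 1/2 + ℤ` for odd and `β_j ∉ ℤ` for even order; `m ≥ 1`. -/
def Eqn.Admissible (e : Eqn) : Prop := 1 ≤ e.m ∧ ∀ j (a : ℤ), e.β j ≠ match e.odd with
  | true => (a : ℚ) + 1 / 2
  | false => (a : ℚ)

/-- the power series `k + ε` in the variable `ε` -/
noncomputable def shift (k : ℕ) : PowerSeries ℚ := C (k : ℚ) + X

/-- `a_k(ε) = ∏_{l < k} Q(l + ε) / (l + 1 + ε)^n`. The series `∑_k a_k(ε) z^(k + ε)` solves the equation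
`(θ^n - z Q(θ)) f = ε^n z^ε`, hence its coefficients `f_j` at `ε^j` with `j < n` are solutions of the homogeneous
equation. -/
noncomputable def Eqn.frob (e : Eqn) (k : ℕ) : PowerSeries ℚ :=
  ∏ l ∈ Finset.range k, (Polynomial.aeval (shift l) e.poly * ((shift (l + 1))⁻¹) ^ e.order)

/-- The matrix with the entries `(θ^i f_j)(1 / t)`, where `f_j(z)` is the coefficient of `ε^j` in the series
`∑_k a_k(ε) z^(k + ε)`, `z^ε = ∑_l (log z)^l ε^l / l!`. -/
noncomputable def Eqn.Y (e : Eqn) (t : ℕ) : Matrix (Fin e.order) (Fin e.order) ℂ :=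
  Matrix.of fun i j => ∑ l ∈ Finset.range ((j : ℕ) + 1), ((Real.log (1 / t) ^ l / l.factorial : ℝ) : ℂ) *
    ∑' k : ℕ, ((coeff ((j : ℕ) - l) (shift k ^ (i : ℕ) * e.frob k) : ℚ) : ℂ) * (1 / (t : ℂ)) ^ k

/-- the polynomial `(Q(x) + Q(y)) / (x + y + 1)`, a polynomial in `y` with coefficients in `ℚ[x]` -/
noncomputable def lagrange (Q : Polynomial ℚ) : Polynomial (Polynomial ℚ) :=
  (Polynomial.C Q + Q.map Polynomial.C) /ₘ (Polynomial.X + Polynomial.C (Polynomial.X + 1))

/-- The form on the solutions. For odd order it is the antidiagonal matrix with the entries `(-1)^i`. For even order the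
entry `(i, j)` is `(-1)^i q_{i+j+1-n}` for `i + j + 1 ≥ n` and `0` otherwise, where `q_l` are the coefficients of `Q`. -/
noncomputable def Eqn.J (e : Eqn) : Matrix (Fin e.order) (Fin e.order) ℂ :=
  Matrix.of fun i j => match e.odd with
    | true => if (i : ℕ) + j + 1 = e.order then (-1) ^ (i : ℕ) else 0
    | false => if e.order ≤ (i : ℕ) + j + 1 then (((-1) ^ (i : ℕ) * e.poly.coeff (i + j + 1 - e.order) : ℚ) : ℂ) else 0

/-- The form on the fibres. For odd order it is the coefficient of `x^i y^j` in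
`(x^n + y^n) / (x + y) - z (Q(x) + Q(y)) / (x + y + 1)`. -/
noncomputable def Eqn.B (e : Eqn) (z : ℂ) : Matrix (Fin e.order) (Fin e.order) ℂ :=
  Matrix.of fun i j => match e.odd with
    | true => e.J i j - z * ((((lagrange e.poly).coeff j).coeff i : ℚ) : ℂ)
    | false => e.J i j

/-- the torsor of the orthogonal (symplectic) group of `J`: the matrices `X` with `Xᵀ B(z) X = J` -/
def Eqn.T (e : Eqn) (z : ℂ) : Set (Matrix (Fin e.order) (Fin e.order) ℂ) := {X | X.transpose * e.B z * X = e.J}

/-- the point with the coordinates `l_i` and the entries of the matrices `X_i` -/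
def point {k : ℕ} {e : Fin k → Eqn} (l : Fin k → ℂ) (X : ∀ i, Matrix (Fin (e i).order) (Fin (e i).order) ℂ) :
    (Σ i : Fin k, Option (Fin (e i).order × Fin (e i).order)) → ℂ
  | ⟨i, none⟩ => l i
  | ⟨i, some p⟩ => X i p.1 p.2

/-- There is a polynomial relation of degree `≤ δ` with coefficients in `V` between the numbers `log t_i` and the
entries of the matrices `Y_i(1 / t_i) Ω_i` which does not vanish identically on `ℂ^k × ∏_i T_i(1 / t_i) Ω_i`. -/
def Exceptional (δ : ℕ) (V : Submodule ℚ ℂ) {k : ℕ} (e : Fin k → Eqn)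
    (Ω : ∀ i, Matrix (Fin (e i).order) (Fin (e i).order) ℂ) (t : Fin k → ℕ) : Prop :=
  ∃ P : MvPolynomial (Σ i : Fin k, Option (Fin (e i).order × Fin (e i).order)) ℂ,
    P.totalDegree ≤ δ ∧ (∀ s, P.coeff s ∈ V) ∧
    MvPolynomial.aeval (point (fun i => ((Real.log (t i) : ℝ) : ℂ)) fun i => (e i).Y (t i) * Ω i) P = 0 ∧
    ∃ (l : Fin k → ℂ) (X : ∀ i, Matrix (Fin (e i).order) (Fin (e i).order) ℂ), (∀ i, X i ∈ (e i).T (1 / (t i : ℂ))) ∧
      MvPolynomial.aeval (point l fun i => X i * Ω i) P ≠ 0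

theorem frob_eq (e : Eqn) (k : ℕ) : e.frob k = Pool.Agent.Y119.HY.aq e.order e.poly k := rfl

theorem fam (e : Eqn) (he : e.Admissible) : Run7.h893.HO.Fam e.order e.poly e.J e.B := by
  obtain ⟨_ | _, m, β⟩ := e
  · obtain ⟨hm, hβ⟩ := he
    have h := Run7.h893.HO.fam_even hm hβ
    have e1 : Pool.Agent.Y119.HY.cm (Pool.Agent.Y119.HY.Jm (2 * m) (Pool.Agent.Y119.HY.QB β)) = Eqn.J ⟨false, m, β⟩ := by
      ext i j
      rw [Pool.Agent.Y119.HY.cm_apply]
      show ((Pool.Agent.Y119.HY.Jm (2 * m) (Pool.Agent.Y119.HY.QB β) i j : ℚ) : ℂ) =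
        if 2 * m ≤ (i : ℕ) + j + 1 then (((-1) ^ (i : ℕ) * (Pool.Agent.Y119.HY.QB β).coeff (i + j + 1 - 2 * m) : ℚ) : ℂ) else 0
      unfold Pool.Agent.Y119.HY.Jm
      rw [Matrix.of_apply]
      split_ifs
      · rfl
      · simp
    rw [e1] at h
    exact h
  · obtain ⟨hm, hβ⟩ := he
    have h := Run7.h893.HO.fam_odd hm hβ
    have e1 : Pool.Agent.Y119.HY.cm (Run7.h893.HO.J0m (2 * m + 1)) = Eqn.J ⟨true, m, β⟩ := by
      ext i j
      rw [Pool.Agent.Y119.HY.cm_apply]
      show ((Run7.h893.HO.J0m (2 * m + 1) i j : ℚ) : ℂ) = if (i : ℕ) + j + 1 = 2 * m + 1 then (-1) ^ (i : ℕ) else 0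
      unfold Run7.h893.HO.J0m
      rw [Matrix.of_apply]
      split_ifs <;> simp
    have e2 : Run7.h893.HO.Bz (Pool.Agent.Y119.HY.cm (Run7.h893.HO.J0m (2 * m + 1)))
        (Pool.Agent.Y119.HY.cm (Run7.h893.HO.J1m (2 * m + 1) (Run7.h893.HO.QP β))) = Eqn.B ⟨true, m, β⟩ := by
      funext z
      ext i j
      unfold Run7.h893.HO.Bz
      rw [Matrix.sub_apply, Matrix.smul_apply, e1, smul_eq_mul]
      rfl
    rw [e2, e1] at h
    exact h

theorem Y_eq (e : Eqn) (t : ℕ) : e.Y t = Yt e.order e.poly t := by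
  ext i j
  unfold Eqn.Y Yt
  rw [Matrix.of_apply, Matrix.mul_apply]
  have hE : ∀ c : Fin e.order, Pool.Agent.Y119.HY.E (Pool.Agent.Y119.HY.cm (Pool.Agent.Y119.HY.Am e.order))
      (-((Real.log t : ℝ) : ℂ)) c j = ∑ l ∈ Finset.range e.order,
        if (j : ℕ) = c + l then ((Real.log (1 / t) ^ l / l.factorial : ℝ) : ℂ) else 0 := by
    intro c
    unfold Pool.Agent.Y119.HY.E
    rw [Matrix.sum_apply]
    refine Finset.sum_congr rfl fun l _ => ?_
    rw [Matrix.smul_apply, ← Pool.Agent.Y119.HY.cm_pow, Pool.Agent.Y119.HY.cm_apply, Pool.Agent.Y119.HY.Am_pow, smul_eq_mul,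
      one_div, Real.log_inv]
    split_ifs
    · push_cast
      ring
    · simp
  simp only [hE, Finset.mul_sum]
  rw [Finset.sum_comm]
  have hsub : Finset.range ((j : ℕ) + 1) ⊆ Finset.range e.order := by
    intro l hl
    rw [Finset.mem_range] at hl ⊢
    have := j.2
    omega
  refine Finset.sum_subset_zero_on_sdiff hsub (fun l hl => ?_) fun l hl => ?_
  · rw [Finset.mem_sdiff, Finset.mem_range, Finset.mem_range] at hl
    refine Finset.sum_eq_zero fun c _ => ?_
    rw [if_neg (by omega), mul_zero]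
  · rw [Finset.mem_range] at hl
    have hj := j.2
    rw [Finset.sum_eq_single (⟨(j : ℕ) - l, by omega⟩ : Fin e.order)]
    · rw [if_pos (by simp only; omega), mul_comm]
      congr 1
      unfold Pool.Agent.Y119.HY.Hf Pool.Agent.Y119.HY.ps
      rw [Matrix.of_apply]
      refine tsum_congr fun k => ?_
      show _ = ((Pool.Agent.Y119.HY.hq e.order e.poly k i ((j : ℕ) - l) : ℚ) : ℂ) * (((1 / (t : ℝ) : ℝ)) : ℂ) ^ k
      unfold Pool.Agent.Y119.HY.hq
      rw [← frob_eq]
      have hs : Pool.Agent.Y119.HY.kx k = shift k := rfl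
      rw [hs]
      push_cast
      rfl
    · intro c _ hc
      rw [if_neg, mul_zero]
      intro h
      apply hc
      apply Fin.ext
      simp only
      omega
    · intro h
      exact absurd (Finset.mem_univ _) h

theorem point_eq {k : ℕ} {e : Fin k → Eqn} (l : Fin k → ℂ) (X : ∀ i, Matrix (Fin (e i).order) (Fin (e i).order) ℂ) :
    point l X = pw (n := fun i => (e i).order) l X := by
  funext v
  obtain ⟨i, _ | p⟩ := v
  · rfl
  · rfl

/-- the form is symmetric for odd and alternating for even order -/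
theorem J_symm (e : Eqn) (he : e.Admissible) : e.J.transpose = (match e.odd with
    | true => e.J
    | false => -e.J) := by
  obtain ⟨_ | _, m, β⟩ := e
  · obtain ⟨hm, hβ⟩ := he
    have hβ' : ∀ j, ∀ l : ℕ, (l : ℚ) + β j ≠ 0 ∧ (l : ℚ) + -β j ≠ 0 := by
      intro j l
      constructor
      · intro h
        apply hβ j (-(l : ℤ))
        push_cast
        linear_combination h
      · intro h
        apply hβ j (l : ℤ)
        push_cast
        linear_combination -h
    have h := Pool.Agent.Y119.HY.Jc_skew (QD_QB hm hβ')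
    have e1 : Pool.Agent.Y119.HY.cm (Pool.Agent.Y119.HY.Jm (2 * m) (Pool.Agent.Y119.HY.QB β)) = Eqn.J ⟨false, m, β⟩ := by
      ext i j
      rw [Pool.Agent.Y119.HY.cm_apply]
      show ((Pool.Agent.Y119.HY.Jm (2 * m) (Pool.Agent.Y119.HY.QB β) i j : ℚ) : ℂ) =
        if 2 * m ≤ (i : ℕ) + j + 1 then (((-1) ^ (i : ℕ) * (Pool.Agent.Y119.HY.QB β).coeff (i + j + 1 - 2 * m) : ℚ) : ℂ) else 0
      unfold Pool.Agent.Y119.HY.Jm
      rw [Matrix.of_apply]
      split_ifs
      · rfl
      · simp
    rw [e1] at h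
    exact h
  · have h := Run7.h893.HO.J0m_symm (n := 2 * m + 1) ⟨m, rfl⟩
    have h1 := congrArg Pool.Agent.Y119.HY.cm h
    rw [Pool.Agent.Y119.HY.cm_transpose] at h1
    have e1 : Pool.Agent.Y119.HY.cm (Run7.h893.HO.J0m (2 * m + 1)) = Eqn.J ⟨true, m, β⟩ := by
      ext i j
      rw [Pool.Agent.Y119.HY.cm_apply]
      show ((Run7.h893.HO.J0m (2 * m + 1) i j : ℚ) : ℂ) = if (i : ℕ) + j + 1 = 2 * m + 1 then (-1) ^ (i : ℕ) else 0
      unfold Run7.h893.HO.J0m
      rw [Matrix.of_apply]
      split_ifs <;> simp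
    rw [e1] at h1
    exact h1

/-- Let `e_i`, `1 ≤ i ≤ k`, be admissible hypergeometric equations of Calabi–Yau type, of odd or even orders. Then the
forms `J_i` are symmetric for odd and alternating for even order and non-degenerate, the matrices `Y_i(1 / t)` lie in the
torsors `T_i(1 / t)` for `t ≥ 2`, and for all `δ` and `D` there are `c > 0` and `C` such that for every `ℚ`-space `V` of
complex numbers of dimension `≤ D`, all complex matrices `Ω_i` and every box `∏_i (x_i, x_i + N]` with `x_i ≥ 1` the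
following holds for all but `C N^(k-1) ∑_i (1 + N / (x_i + N)^c)` integral points `t` of the box: every polynomial
relation of degree `≤ δ` with coefficients in `V` between the numbers `log t_i` and the entries of the matrices
`Y_i(1 / t_i) Ω_i` vanishes identically on `ℂ^k × ∏_i T_i(1 / t_i) Ω_i`. -/
theorem result (k : ℕ) (e : Fin k → Eqn) (he : ∀ i, (e i).Admissible) :
    (∀ i, (e i).J.transpose = (match (e i).odd with
        | true => (e i).J
        | false => -(e i).J) ∧ (e i).J.det ≠ 0 ∧ ∀ t : ℕ, 2 ≤ t → (e i).Y t ∈ (e i).T (1 / (t : ℂ))) ∧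
    ∀ δ D : ℕ, ∃ c C : ℝ, 0 < c ∧ ∀ V : Submodule ℚ ℂ, Module.Finite ℚ V → Module.finrank ℚ V ≤ D →
      ∀ (Ω : ∀ i, Matrix (Fin (e i).order) (Fin (e i).order) ℂ) (x : Fin k → ℕ) (N : ℕ), (∀ i, 1 ≤ x i) → 1 ≤ N →
      (({t : Fin k → ℕ | (∀ i, x i < t i ∧ t i ≤ x i + N) ∧ Exceptional δ V e Ω t}.ncard : ℕ) : ℝ) ≤
        C * (N : ℝ) ^ (k - 1) * ∑ i, (1 + N / ((x i : ℝ) + N) ^ c) := by
  classical
  have hF := fun i => fam (e i) (he i)
  have hcast : ∀ t : ℕ, (((1 / (t : ℝ) : ℝ)) : ℂ) = 1 / (t : ℂ) := fun t => by push_cast; rfl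
  refine ⟨fun i => ⟨J_symm (e i) (he i), (hF i).det, fun t ht => ?_⟩, fun δ D => ?_⟩
  · show ((e i).Y t).transpose * (e i).B (1 / (t : ℂ)) * (e i).Y t = (e i).J
    rw [Y_eq, ← hcast]
    exact (hF i).Yt_form ht
  obtain ⟨c, C, hc, -, hmain⟩ := Run7.h893.HO.tuples_log k δ D (fun i => (e i).order) (fun i => (e i).poly)
    (fun i => (e i).J) (fun i => (e i).B) hF
  refine ⟨c, C, hc, ?_⟩
  intro V hVf hV Ω x N hx hN
  set S := {t : Fin k → ℕ | (∀ i, x i < t i ∧ t i ≤ x i + N) ∧ Exceptional δ V e Ω t} with hS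
  have hfin : S.Finite := by
    refine (Set.finite_Iic (fun i : Fin k => x i + N)).subset ?_
    intro t ht i
    exact (ht.1 i).2
  rw [Set.ncard_eq_toFinset_card S hfin]
  refine hmain V hV Ω x N hx hN _ fun t ht => ?_
  have ht' : t ∈ S := hfin.mem_toFinset.1 ht
  obtain ⟨hbox, P, h1, h2, h3, l, g, hg, h4⟩ := ht'
  refine ⟨hbox, P, h1, h2, ?_, l, g, fun i => ?_, ?_⟩
  · rw [point_eq] at h3
    simp only [Y_eq] at h3
    exact h3
  · have h5 : (g i).transpose * (e i).B (1 / (t i : ℂ)) * g i = (e i).J := hg i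
    rw [← hcast] at h5
    exact h5
  · rw [point_eq] at h4
    exact h4

end Pool.Agent.Results.MP_57341d_ag.HypergeometricOrthogonal
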