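import Pool.Agent.Run7.h893.Kept.HypergeometricOrthogonal
import Pool.Agent.Run7.h893.MX.Inst

/-!
# Mixed hypergeometric motives: for almost all fibres all relations of bounded degree between the periods come from the torsor

Let `θ^n f = z Q(θ) f` be a self-dual hypergeometric equation with maximally unipotent monodromy at `z = 0` (`Eqn`, see
`HypergeometricOrthogonal` of MP_57341d_ag; for example the Picard-Fuchs equations of the mirror families of elliptic curves,
K3 surfaces, Calabi-Yau threefolds and fourfolds with one parameter), and `0 < r < 1` a rational number. The series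
`F(z) = ∑_k g_k z^(k + r)` with `g_k = ∏_{l < k} Q(l + r) / (l + 1 + r)^n` solves the inhomogeneous equation
`(θ^n - z Q(θ)) F = r^n z^r`, hence the reducible hypergeometric equation `(θ - r) (θ^n - z Q(θ)) F = 0`. Its solutions are
the periods of an extension of the Kummer motive `z^r` by the hypergeometric motive `M(z)`, in general non-trivial: a
family of mixed motives. For even order and `β = (1/5, 2/5)` the local system is that of the mirror family of the quintic
threefolds; with `r = 1/2` such inhomogeneous Picard-Fuchs equations are those of the normal functions of algebraic cycles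
and of the domain walls of the real quintic.

The fibre at `z = 1 / t` of the mixed motive has the periods `Y(1/t) Ω` (`Y = (θ^i f_j)` for the Frobenius basis `f_j`,
`Ω` a matrix of constants) and the vectors `a (θ^i F)(1/t) + Y(1/t) c` with constants `a` and `c` (the periods of the
limit mixed motive), and the Kummer motive of `t` has the period `log t`. We consider finitely many equations `i` of odd or
even orders, for each of them finitely many exponents `r_ij`, and arbitrary constants. Let `T_i(z)` be the torsor of the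
orthogonal (symplectic) group, the set of the matrices `X` with `Xᵀ B_i(z) X = J_i`. We prove: for almost all tuples
of fibres all relations of bounded degree, over any finite dimensional space of constants, vanish on the set of the points
`(l_i, X_i Ω_i, a_ij y_ij + X_i c_ij)` with `l_i ∈ ℂ`, `X_i ∈ T_i(1 / t_i)` and arbitrary vectors `y_ij`. So the relations
of bounded degree are those of the motivic Galois group with the unipotent radical as large as possible.
-/

set_option autoImplicit false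

open Pool.Agent.Y119.HZ
open Pool.Agent.Results.MP_57341d_ag.HypergeometricOrthogonal (Eqn)

namespace Pool.Agent.Results.MP_5d33ca_ag.MixedHypergeometric

/-- Exponents of inhomogeneous equations: distinct rational numbers `0 < r_j < 1` such that `Q(l + r_j) ≠ 0` for all
integers `l ≥ 0` (otherwise the solution `z^(-r_j) F` is a polynomial). -/
def Exponents (e : Eqn) {s : ℕ} (r : Fin s → ℚ) : Prop :=
  Function.Injective r ∧ ∀ j, 0 < r j ∧ r j < 1 ∧ ∀ l : ℕ, e.poly.eval ((l : ℚ) + r j) ≠ 0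

/-- the coefficients `g_k = ∏_{l < k} Q(l + r) / (l + 1 + r)^n` of the solution `F(z) = ∑_k g_k z^(k + r)` of the
inhomogeneous equation `(θ^n - z Q(θ)) F = r^n z^r` -/
noncomputable def coef (e : Eqn) (r : ℚ) (k : ℕ) : ℚ :=
  ∏ l ∈ Finset.range k, (e.poly.eval ((l : ℚ) + r) / ((l : ℚ) + 1 + r) ^ e.order)

/-- the vector of the values `(θ^i F)(1 / t) = ∑_k (k + r)^i g_k (1 / t)^(k + r)` -/
noncomputable def F (e : Eqn) (r : ℚ) (t : ℕ) (i : Fin e.order) : ℂ :=
  ∑' k : ℕ, ((((k : ℝ) + (r : ℝ)) ^ (i : ℕ) * (coef e r k : ℝ) * (1 / (t : ℝ)) ^ ((k : ℝ) + (r : ℝ)) : ℝ) : ℂ)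

/-- the point with the coordinates `l_i`, the entries of the matrices `X_i` and of the vectors `y_ij` -/
def point {k : ℕ} {e : Fin k → Eqn} {s : Fin k → ℕ} (l : Fin k → ℂ)
    (X : ∀ i, Matrix (Fin (e i).order) (Fin (e i).order) ℂ) (y : ∀ i, Fin (s i) → Fin (e i).order → ℂ) :
    (Σ i : Fin k, Option ((Fin (e i).order × Fin (e i).order) ⊕ (Fin (s i) × Fin (e i).order))) → ℂ
  | ⟨i, none⟩ => l i
  | ⟨i, some (.inl p)⟩ => X i p.1 p.2
  | ⟨i, some (.inr p)⟩ => y i p.1 p.2

/-- There is a polynomial relation of degree `≤ δ` with coefficients in `V` between the numbers `log t_i`, the entries of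
the matrices `Y_i(1 / t_i) Ω_i` and of the vectors `a_ij (θ^b F_ij)(1 / t_i) + Y_i(1 / t_i) c_ij` which does not vanish
identically at the points `(l_i, X_i Ω_i, a_ij y_ij + X_i c_ij)` with `X_i ∈ T_i(1 / t_i)`. -/
def Exceptional (δ : ℕ) (V : Submodule ℚ ℂ) {k : ℕ} (e : Fin k → Eqn) {s : Fin k → ℕ} (r : ∀ i, Fin (s i) → ℚ)
    (Ω : ∀ i, Matrix (Fin (e i).order) (Fin (e i).order) ℂ) (a : ∀ i, Fin (s i) → ℂ)
    (c : ∀ i, Fin (s i) → Fin (e i).order → ℂ) (t : Fin k → ℕ) : Prop :=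
  ∃ P : MvPolynomial (Σ i : Fin k, Option ((Fin (e i).order × Fin (e i).order) ⊕ (Fin (s i) × Fin (e i).order))) ℂ,
    P.totalDegree ≤ δ ∧ (∀ m, P.coeff m ∈ V) ∧
    MvPolynomial.aeval (point (fun i => ((Real.log (t i) : ℝ) : ℂ)) (fun i => (e i).Y (t i) * Ω i)
      fun i j => a i j • F (e i) (r i j) (t i) + ((e i).Y (t i)).mulVec (c i j)) P = 0 ∧
    ∃ (l : Fin k → ℂ) (X : ∀ i, Matrix (Fin (e i).order) (Fin (e i).order) ℂ) (y : ∀ i, Fin (s i) → Fin (e i).order → ℂ),
      (∀ i, X i ∈ (e i).T (1 / (t i : ℂ))) ∧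
      MvPolynomial.aeval (point l (fun i => X i * Ω i) fun i j => a i j • y i j + (X i).mulVec (c i j)) P ≠ 0

theorem famR (e : Eqn) (he : e.Admissible) {s : ℕ} {r : Fin s → ℚ} (hr : Exponents e r) :
    Run7.h893.MX.FamR e.order e.poly e.J e.B r := by
  have hF := Pool.Agent.Results.MP_57341d_ag.HypergeometricOrthogonal.fam e he
  have hr1 : ∀ j, 0 < r j ∧ r j < 1 := fun j => ⟨(hr.2 j).1, (hr.2 j).2.1⟩
  have hr2 : ∀ j, ∀ l : ℕ, e.poly.eval ((l : ℚ) + r j) ≠ 0 := fun j => (hr.2 j).2.2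
  have hr0 := hr.1
  clear hr
  obtain ⟨_ | _, m, β⟩ := e
  · obtain ⟨hm, hβ⟩ := he
    have h := Run7.h893.MX.famR_even hm hβ hr0 hr1 hr2
    have e1 : Pool.Agent.Y119.HY.cm (Pool.Agent.Y119.HY.Jm (2 * m) (Pool.Agent.Y119.HY.QB β)) = Eqn.J ⟨false, m, β⟩ := by
      ext i j
      rw [Pool.Agent.Y119.HY.cm_apply]
      show ((Pool.Agent.Y119.HY.Jm (2 * m) (Pool.Agent.Y119.HY.QB β) i j : ℚ) : ℂ) =
        if 2 * m ≤ (i : ℕ) + j + 1 then (((-1) ^ (i : ℕ) * (Pool.Agent.Y119.HY.QB β).coeff (i + j + 1 - 2 * m) : ℚ) : ℂ) else 0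
      unfold Pool.Agent.Y119.HY.Jm
      rw [Matrix.of_apply]
      split_ifs
      · rfl
      · simp
    rw [e1] at h
    exact h
  · obtain ⟨hm, hβ⟩ := he
    have h := Run7.h893.MX.famR_odd hm hβ hr0 hr1 hr2
    have e1 : Pool.Agent.Y119.HY.cm (Run7.h893.HO.J0m (2 * m + 1)) = Eqn.J ⟨true, m, β⟩ := by
      ext i j
      rw [Pool.Agent.Y119.HY.cm_apply]
      show ((Run7.h893.HO.J0m (2 * m + 1) i j : ℚ) : ℂ) = if (i : ℕ) + j + 1 = 2 * m + 1 then (-1) ^ (i : ℕ) else 0
      unfold Run7.h893.HO.J0m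
      rw [Matrix.of_apply]
      split_ifs <;> simp
    have e2 : Run7.h893.HO.Bz (Pool.Agent.Y119.HY.cm (Run7.h893.HO.J0m (2 * m + 1)))
        (Pool.Agent.Y119.HY.cm (Run7.h893.HO.J1m (2 * m + 1) (Run7.h893.HO.QP β))) = Eqn.B ⟨true, m, β⟩ := by
      funext z
      ext i j
      unfold Run7.h893.HO.Bz
      rw [Matrix.sub_apply, Matrix.smul_apply, e1, smul_eq_mul]
      rfl
    rw [e2, e1] at h
    exact h

theorem F_eq (e : Eqn) (r : ℚ) {t : ℕ} (ht : 1 ≤ t) (i : Fin e.order) :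
    F e r t i = (((1 / (t : ℝ)) ^ ((r : ℚ) : ℝ) : ℝ) : ℂ) * Run7.h893.MX.wf e.order e.poly r i (((1 / (t : ℝ) : ℝ)) : ℂ) := by
  have ht0 : (0 : ℝ) < t := by exact_mod_cast ht
  unfold F Run7.h893.MX.wf Pool.Agent.Y119.HY.ps
  rw [← tsum_mul_left]
  refine tsum_congr fun k => ?_
  have h1 : (1 / (t : ℝ)) ^ ((k : ℝ) + (r : ℝ)) = (1 / (t : ℝ)) ^ ((r : ℚ) : ℝ) * (1 / (t : ℝ)) ^ k := by
    rw [Real.rpow_add (by positivity), Real.rpow_natCast, mul_comm]
  have h2 : coef e r k = Run7.h893.MX.gq e.order e.poly r k := rfl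
  rw [h1, h2]
  unfold Run7.h893.MX.wq
  push_cast
  ring

theorem point_eq {k : ℕ} {e : Fin k → Eqn} {s : Fin k → ℕ} (l : Fin k → ℂ)
    (X : ∀ i, Matrix (Fin (e i).order) (Fin (e i).order) ℂ) (y : ∀ i, Fin (s i) → Fin (e i).order → ℂ) :
    point l X y = Run7.h893.MX.pz (n := fun i => (e i).order) l X y := by
  funext v
  obtain ⟨i, _ | p | p⟩ := v
  · rfl
  · rfl
  · rfl

/-- Let `e_i`, `1 ≤ i ≤ k`, be admissible self-dual hypergeometric equations of odd or even orders and `r_ij`,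
`1 ≤ j ≤ s_i`, exponents for the equation `e_i`. For all `δ` and `D` there are `γ > 0` and `C` such that for every
`ℚ`-space `V` of complex numbers of dimension `≤ D`, all complex matrices `Ω_i`, numbers `a_ij` and vectors `c_ij` and every
box `∏_i (x_i, x_i + N]` with `x_i ≥ 1` the following holds for all but `C N^(k-1) ∑_i (1 + N / (x_i + N)^γ)` integral
points `t` of the box: every polynomial relation of degree `≤ δ` with coefficients in `V` between the numbers `log t_i`, the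
entries of the matrices `Y_i(1 / t_i) Ω_i` and of the vectors `a_ij (θ^b F_ij)(1 / t_i) + Y_i(1 / t_i) c_ij` vanishes at all
points `(l_i, X_i Ω_i, a_ij y_ij + X_i c_ij)` with `X_i ∈ T_i(1 / t_i)`. -/
theorem result (k : ℕ) (e : Fin k → Eqn) (he : ∀ i, (e i).Admissible) (s : Fin k → ℕ) (r : ∀ i, Fin (s i) → ℚ)
    (hr : ∀ i, Exponents (e i) (r i)) (δ D : ℕ) :
    ∃ γ C : ℝ, 0 < γ ∧ ∀ V : Submodule ℚ ℂ, Module.Finite ℚ V → Module.finrank ℚ V ≤ D →
      ∀ (Ω : ∀ i, Matrix (Fin (e i).order) (Fin (e i).order) ℂ) (a : ∀ i, Fin (s i) → ℂ)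
        (c : ∀ i, Fin (s i) → Fin (e i).order → ℂ) (x : Fin k → ℕ) (N : ℕ), (∀ i, 1 ≤ x i) → 1 ≤ N →
      (({t : Fin k → ℕ | (∀ i, x i < t i ∧ t i ≤ x i + N) ∧ Exceptional δ V e r Ω a c t}.ncard : ℕ) : ℝ) ≤
        C * (N : ℝ) ^ (k - 1) * ∑ i, (1 + N / ((x i : ℝ) + N) ^ γ) := by
  classical
  have hF := fun i => famR (e i) (he i) (hr i)
  have hcast : ∀ t : ℕ, (((1 / (t : ℝ) : ℝ)) : ℂ) = 1 / (t : ℂ) := fun t => by push_cast; rfl
  obtain ⟨γ, C, hγ, -, hmain⟩ := Run7.h893.MX.tuples_mix k δ D (fun i => (e i).order) s (fun i => (e i).poly)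
    (fun i => (e i).J) (fun i => (e i).B) r hF
  refine ⟨γ, C, hγ, ?_⟩
  intro V hVf hV Ω a c x N hx hN
  set S := {t : Fin k → ℕ | (∀ i, x i < t i ∧ t i ≤ x i + N) ∧ Exceptional δ V e r Ω a c t} with hS
  have hfin : S.Finite := by
    refine (Set.finite_Iic (fun i : Fin k => x i + N)).subset ?_
    intro t ht i
    exact (ht.1 i).2
  rw [Set.ncard_eq_toFinset_card S hfin]
  refine hmain V hV Ω a c x N hx hN _ fun t ht => ?_
  have ht' : t ∈ S := hfin.mem_toFinset.1 ht
  obtain ⟨hbox, P, h1, h2, h3, l, g, y, hg, h4⟩ := ht'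
  have hmv : ∀ {m : ℕ} (M : Matrix (Fin m) (Fin m) ℂ) (v : Fin m → ℂ) (b : Fin m), M.mulVec v b = ∑ d, M b d * v d :=
    fun M v b => rfl
  refine ⟨hbox, P, h1, h2, ?_, l, g, y, fun i => ?_, ?_⟩
  · rw [point_eq] at h3
    have h5 : (fun (i : Fin k) (j : Fin (s i)) => a i j • F (e i) (r i j) (t i) + ((e i).Y (t i)).mulVec (c i j)) =
        fun (i : Fin k) (j : Fin (s i)) (b : Fin (e i).order) => a i j * ((((1 / (t i : ℝ)) ^ ((r i j : ℚ) : ℝ) : ℝ) : ℂ) *
          Run7.h893.MX.wf (e i).order (e i).poly (r i j) b (((1 / (t i : ℝ) : ℝ)) : ℂ)) +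
            ∑ d, Yt (e i).order (e i).poly (t i) b d * c i j d := by
      funext i j b
      have ht1 : 1 ≤ t i := by
        have := (hbox i).1
        omega
      rw [Pi.add_apply, Pi.smul_apply, smul_eq_mul, F_eq _ _ ht1, hmv,
        Pool.Agent.Results.MP_57341d_ag.HypergeometricOrthogonal.Y_eq]
    rw [h5] at h3
    simp only [Pool.Agent.Results.MP_57341d_ag.HypergeometricOrthogonal.Y_eq] at h3
    exact h3
  · have h5 : (g i).transpose * (e i).B (1 / (t i : ℂ)) * g i = (e i).J := hg i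
    rw [← hcast] at h5
    exact h5
  · rw [point_eq] at h4
    exact h4

end Pool.Agent.Results.MP_5d33ca_ag.MixedHypergeometric
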