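import Pool.Agent.Run7.h893.Kept.HypergeometricOrthogonal
import Pool.Agent.Run7.h893.DR.Main
import Pool.Agent.Run7.h893.TO.Hyp
import Pool.Agent.Y123.GN.B4
import Pool.Agent.Y123.ST.Out

/-!
# De Rham-Betti classes in all tensor spaces of almost all members of self-dual hypergeometric families

Let `M_i(z)`, `1 ≤ i ≤ k`, be the families of motives of the self-dual hypergeometric equations with maximally unipotent
monodromy at `z = 0`, of any order `n_i ≥ 2` (`Eqn`, see `HypergeometricOrthogonal` of MP_57341d_ag; for example the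
transcendental parts of the middle cohomology of the mirror families of elliptic curves, K3 surfaces, Calabi-Yau
threefolds and fourfolds with one parameter). The period matrix of `M_i(1/t)` is `Y_i(1/t) Ω_i`, with the matrix
`Y_i = (θ^a f_b)` of the Frobenius basis and a matrix `Ω_i` of constants (the periods of the limit motive). The
polarisation of `M_i(1/t)` is given by the matrix `S_i = Ω_iᵀ J_i Ω_i` with respect to the basis of the homology, and by the
matrix `B_i(1/t)` with respect to the basis of the de Rham cohomology. It is given by an algebraic cycle.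

**(B) All tensor spaces.** Let `K` be a number field, `M_0` any de Rham-Betti object over `K`, for example the cohomology
of any variety over `K`, with period matrix `C₀` (any invertible complex matrix), `K(t)` the Kummer motive of `t`, and
`M = M_0 ⊕ ℚ(-1) ⊕ ⨁_i (K(t_i) ⊕ M_i(1/t_i))`. We prove: for almost all `t` every de Rham-Betti class over `K` in every
tensor space `M^{⊗ p} ⊗ (M^∨)^{⊗ q}`, with no bound for `p` and `q`, is invariant under the product of the groups
`G_a` and `{g_i : det g_i = 1, g_i preserves the polarisation}`. So the classes of the tensor space of `M_0` and of the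
`M_i(1/t_i)` are, by the first fundamental theorem of invariant theory, combinations of products of classes of `M_0(w)` and
of the polarisations and determinants of the `M_i`, which are classes of algebraic cycles (the determinant of `M_i(1/t)` is
a twist of the motive of the field `ℚ(√(1 - 1/t))` or of `ℚ`): on the products of a variety `Z` with any powers of these
fibres the conjecture for the classes coming from `Z` and the `M_i` follows from the conjecture for `Z`.

**(A) Number fields depending on the fibre.** Let `M(t) = ⊕_i M_i(1/t_i)`. For all `r`, `w` and `d` and almost all `t` all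
classes in `M(t)^{⊗ r}(w)` with coefficients in ANY number field of degree `≤ d` (which may depend on `t` and on the class)
are invariant under the group `∏_i {g_i : g_iᵀ S_i g_i = S_i, det g_i = 1}`.

The proof of (B) uses the theorem on relations of bounded degree (`HypergeometricOrthogonal`), the criterion `abs_main` of
`Pool/Agent/Y123/GN` (Lie algebras of subtorsors, Jordan's theorem) and the generation of special orthogonal groups by
unipotent elements (`Run7/h893/TO`).
-/

set_option autoImplicit false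

open Matrix

namespace Pool.Agent.Results.MP_bf54cf_ag.HypergeometricAllTensors

open Pool.Agent.Results.MP_57341d_ag.HypergeometricOrthogonal (Eqn)

variable {k : ℕ}

/-- the indices of the bases of `M = ⊕_i M_i` -/
abbrev Ind (e : Fin k → Eqn) : Type := Σ i, Fin (e i).order

/-- the period matrix of `M(t) = ⊕_i M_i(1/t_i)`: block diagonal with the blocks `Y_i(1/t_i) Ω_i` -/
noncomputable def per (e : Fin k → Eqn) (Ω : ∀ i, Matrix (Fin (e i).order) (Fin (e i).order) ℂ) (t : Fin k → ℕ) :
    Matrix (Ind e) (Ind e) ℂ := Matrix.blockDiagonal' fun i => (e i).Y (t i) * Ω i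

/-- the polarisation on the homology of `M_i` -/
noncomputable def pol (e : Fin k → Eqn) (Ω : ∀ i, Matrix (Fin (e i).order) (Fin (e i).order) ℂ) (i : Fin k) :
    Matrix (Fin (e i).order) (Fin (e i).order) ℂ := (Ω i).transpose * (e i).J * Ω i

/-- For a motive with the period matrix `P` (rows: de Rham, columns: Betti) the rational multilinear form `φ` in `r`
variables on the homology is a de Rham-Betti class of weight `w` over a number field of degree at most `d`: `(2πi)^w φ`
is a linear combination of products of `r` periods, with coefficients in such a field. -/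
def IsClass {ι : Type} [Fintype ι] (P : Matrix ι ι ℂ) (r : ℕ) (w : ℤ) (d : ℕ) (φ : (Fin r → ι) → ℚ) : Prop :=
  ∃ (F : IntermediateField ℚ ℂ) (α : (Fin r → ι) → ℂ), FiniteDimensional ℚ F ∧ Module.finrank ℚ F ≤ d ∧ (∀ a, α a ∈ F) ∧
    ∀ b, (2 * (Real.pi : ℂ) * Complex.I) ^ w * (φ b : ℂ) = ∑ a, α a * ∏ l, P (a l) (b l)

/-- The multilinear form `φ` is invariant under the tuples `(g_i)` of linear maps of determinant one which preserve the
forms `S_i`. -/
def Invariant {e : Fin k → Eqn} (S : ∀ i, Matrix (Fin (e i).order) (Fin (e i).order) ℂ) {r : ℕ}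
    (φ : (Fin r → Ind e) → ℚ) : Prop :=
  ∀ g : ∀ i, Matrix (Fin (e i).order) (Fin (e i).order) ℂ, (∀ i, (g i).transpose * S i * g i = S i ∧ (g i).det = 1) →
    ∀ b, ∑ c, (φ c : ℂ) * ∏ l, Matrix.blockDiagonal' g (c l) (b l) = φ b


/-! ### all tensor spaces -/

/-- the number `2πi` -/
noncomputable def twoPiI : ℂ := 2 * Real.pi * Complex.I

/-- the block matrix `x ⊕ μ`; for a period matrix `x` of `M_0` and `μ = 2πi` the period matrix of `M_0 ⊕ ℚ(-1)` -/
def withTate {r : ℕ} (x : Matrix (Fin r) (Fin r) ℂ) (μ : ℂ) : Matrix (Fin r ⊕ Unit) (Fin r ⊕ Unit) ℂ :=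
  Matrix.fromBlocks x 0 0 (Matrix.of fun _ _ => μ)

/-- the index set of the bases of `M_0 ⊕ ℚ(-1) ⊕ ⨁_i (K(t_i) ⊕ M_i(1/t_i))` -/
abbrev Index (r : ℕ) (e : Fin k → Eqn) : Type := (Fin r ⊕ Unit) ⊕ (Σ i : Fin k, Fin 2 ⊕ Fin (e i).order)

/-- the block matrix `x ⊕ μ ⊕ ⨁_i ((1, u_i; 0, μ) ⊕ X_i)` -/
noncomputable def total {r : ℕ} {e : Fin k → Eqn} (x : Matrix (Fin r) (Fin r) ℂ) (μ : ℂ) (u : Fin k → ℂ)
    (X : ∀ i, Matrix (Fin (e i).order) (Fin (e i).order) ℂ) : Matrix (Index r e) (Index r e) ℂ :=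
  Matrix.fromBlocks (withTate x μ) 0 0 (Matrix.blockDiagonal' fun i => Matrix.fromBlocks !![1, u i; 0, μ] 0 0 (X i))

/-- the period matrix of `M_0 ⊕ ℚ(-1) ⊕ ⨁_i (K(t_i) ⊕ M_i(1/t_i))`, rows: Betti side, columns: de Rham side -/
noncomputable def periodMatrix {r : ℕ} (C₀ : Matrix (Fin r) (Fin r) ℂ) (e : Fin k → Eqn)
    (Ω : ∀ i, Matrix (Fin (e i).order) (Fin (e i).order) ℂ) (t : Fin k → ℕ) : Matrix (Index r e) (Index r e) ℂ :=
  total C₀ twoPiI (fun i => ((Real.log (t i) : ℝ) : ℂ)) fun i => ((e i).Y (t i) * Ω i)ᵀ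

/-- The action of an invertible matrix on the mixed tensors of type `(p, q)`: it acts by `x` on the first `p` indices and
by the contragredient on the others. -/
noncomputable def tens {B : Type} [Fintype B] [DecidableEq B] (p q : ℕ) (x : Matrix B B ℂ) :
    Matrix ((Fin p → B) × (Fin q → B)) ((Fin p → B) × (Fin q → B)) ℂ :=
  Matrix.of fun I J => (∏ s, x (I.1 s) (J.1 s)) * ∏ t, x⁻¹ (J.2 t) (I.2 t)

/-- For all `p` and `q`, every de Rham-Betti class over `K` in the tensor space `M^{⊗ p} ⊗ (M^∨)^{⊗ q}`, that is, every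
rational vector `b` on the Betti side which is the image of a vector `a` with coordinates in `K` on the de Rham side, is
invariant under all `(u_i)` and all `(g_i)` of determinant one which preserve the forms `S_i`. -/
def AllInvariant (K : Subfield ℂ) {r : ℕ} (C₀ : Matrix (Fin r) (Fin r) ℂ) (e : Fin k → Eqn)
    (Ω : ∀ i, Matrix (Fin (e i).order) (Fin (e i).order) ℂ) (t : Fin k → ℕ) : Prop :=
  ∀ (p q : ℕ) (a : (Fin p → Index r e) × (Fin q → Index r e) → K) (b : (Fin p → Index r e) × (Fin q → Index r e) → ℚ),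
    Matrix.mulVec (tens p q (periodMatrix C₀ e Ω t)) (fun J => (a J : ℂ)) = (fun I => (b I : ℂ)) →
    ∀ (u : Fin k → ℂ) (g : ∀ i, Matrix (Fin (e i).order) (Fin (e i).order) ℂ),
      (∀ i, g i * pol e Ω i * (g i)ᵀ = pol e Ω i ∧ (g i).det = 1) →
      Matrix.mulVec (tens p q (total 1 1 u g)) (fun I => (b I : ℂ)) = fun I => (b I : ℂ)

/-! ### the groups -/

open Run7.h893.DR Run7.h893.HO Pool.Agent.Y119.HY

/-- the connected group -/
noncomputable def grp (e : Eqn) : Submonoid (Matrix (Fin e.order) (Fin e.order) ℂ) := match e.odd with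
  | true => Eo e.J
  | false => Es e.J

theorem J_odd {e : Eqn} (he : e.Admissible) (h : e.odd = true) : e.J.transpose = e.J := by
  have h1 := Pool.Agent.Results.MP_57341d_ag.HypergeometricOrthogonal.J_symm e he
  rw [h1, h]

theorem J_even {e : Eqn} (he : e.Admissible) (h : e.odd = false) : e.J.transpose = -e.J := by
  have h1 := Pool.Agent.Results.MP_57341d_ag.HypergeometricOrthogonal.J_symm e he
  rw [h1, h]

theorem J_det {e : Eqn} (he : e.Admissible) : e.J.det ≠ 0 :=
  (Pool.Agent.Results.MP_57341d_ag.HypergeometricOrthogonal.fam e he).det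

theorem grp_CG {e : Eqn} (he : e.Admissible) : CG (grp e) := by
  unfold grp
  rcases h : e.odd with _ | _
  · exact CG_Es (J_even he h)
  · exact CG_Eo (J_odd he h)

theorem grp_mem {e : Eqn} (he : e.Admissible) {g : Matrix (Fin e.order) (Fin e.order) ℂ} (hg : g.transpose * e.J * g = e.J)
    (hg1 : g.det = 1) : g ∈ grp e := by
  unfold grp
  rcases h : e.odd with _ | _
  · exact mem_Es (J_even he h) (J_det he) hg
  · exact mem_Eo (J_odd he h) (J_det he) hg hg1

theorem iso_mul {n : ℕ} {J a b : Matrix (Fin n) (Fin n) ℂ} (ha : a.transpose * J * a = J) (hb : b.transpose * J * b = J) :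
    (a * b).transpose * J * (a * b) = J := by
  calc (a * b).transpose * J * (a * b) = b.transpose * (a.transpose * J * a) * b := by
        rw [Matrix.transpose_mul]
        simp only [Matrix.mul_assoc]
    _ = J := by rw [ha, hb]

theorem grp_iso {e : Eqn} (he : e.Admissible) {g : Matrix (Fin e.order) (Fin e.order) ℂ} (hg : g ∈ grp e) :
    g.transpose * e.J * g = e.J := by
  unfold grp at hg
  rcases h : e.odd with _ | _
  · rw [h] at hg
    have hJ := J_even he h
    unfold Es at hg
    induction hg using Submonoid.closure_induction with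
    | mem g hg =>
      obtain ⟨u, s, rfl⟩ := hg
      exact tv_isom hJ u s
    | one => simp
    | mul a b _ _ ha hb => exact iso_mul ha hb
  · rw [h] at hg
    have hJ := J_odd he h
    unfold Eo at hg
    induction hg using Submonoid.closure_induction with
    | mem g hg =>
      obtain ⟨x, y, hx, hy, rfl⟩ := hg
      exact iso_mul (rf_isom hJ hx) (rf_isom hJ hy)
    | one => simp
    | mul a b _ _ ha hb => exact iso_mul ha hb

/-- Let `e_i`, `1 ≤ i ≤ k`, be admissible self-dual hypergeometric equations. The polarisation `S_i` corresponds to the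
matrix `B_i(1/t)` on the de Rham side: `Pᵀ diag(B_i(1/t_i)) P = diag(S_i)` for the period matrix `P` of `M(t)`, `t_i ≥ 2`.
For all `r`, `w` and `d` there are `c > 0` and `C` such that for all invertible complex matrices `Ω_i` and every box
`∏_i (x_i, x_i + N]` with `x_i ≥ 1` for all but `C N^(k-1) ∑_i (1 + N / (x_i + N)^c)` integral points `t` of the box all
de Rham-Betti classes in `M(t)^{⊗ r}(w)` over number fields of degree at most `d` are invariant under the group of the
tuples `(g_i)` of linear maps of determinant one which preserve the polarisations `S_i`. -/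
theorem partA (k : ℕ) (e : Fin k → Eqn) (he : ∀ i, (e i).Admissible) :
    (∀ (Ω : ∀ i, Matrix (Fin (e i).order) (Fin (e i).order) ℂ) (t : Fin k → ℕ), (∀ i, 2 ≤ t i) →
      (per e Ω t).transpose * (Matrix.blockDiagonal' fun i => (e i).B (1 / (t i : ℂ))) * per e Ω t =
        Matrix.blockDiagonal' (pol e Ω)) ∧
    ∀ (r : ℕ) (w : ℤ) (d : ℕ), ∃ c C : ℝ, 0 < c ∧ ∀ Ω : ∀ i, Matrix (Fin (e i).order) (Fin (e i).order) ℂ,
      (∀ i, (Ω i).det ≠ 0) → ∀ (x : Fin k → ℕ) (N : ℕ), (∀ i, 1 ≤ x i) → 1 ≤ N →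
      (({t : Fin k → ℕ | (∀ i, x i < t i ∧ t i ≤ x i + N) ∧
        ∃ φ : (Fin r → Ind e) → ℚ, IsClass (per e Ω t) r w d φ ∧ ¬ Invariant (pol e Ω) φ}.ncard : ℕ) : ℝ) ≤
        C * (N : ℝ) ^ (k - 1) * ∑ i, (1 + N / ((x i : ℝ) + N) ^ c) := by
  classical
  obtain ⟨h1, h2⟩ := Pool.Agent.Results.MP_57341d_ag.HypergeometricOrthogonal.result k e he
  have hT : ∀ i, ∀ t : ℕ, 2 ≤ t → ((e i).Y t).transpose * (e i).B (1 / (t : ℂ)) * (e i).Y t = (e i).J :=
    fun i t ht => (h1 i).2.2 t ht
  refine ⟨fun Ω t ht => ?_, fun r w d => ?_⟩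
  · unfold per
    rw [Matrix.blockDiagonal'_transpose, ← Matrix.blockDiagonal'_mul, ← Matrix.blockDiagonal'_mul]
    congr 1
    funext i
    unfold pol
    rw [Matrix.transpose_mul]
    calc (Ω i).transpose * ((e i).Y (t i)).transpose * (e i).B (1 / (t i : ℂ)) * ((e i).Y (t i) * Ω i)
        = (Ω i).transpose * (((e i).Y (t i)).transpose * (e i).B (1 / (t i : ℂ)) * (e i).Y (t i)) * Ω i := by
          simp only [Matrix.mul_assoc]
      _ = _ := by rw [hT i (t i) (ht i)]
  · set T : ℂ := (2 * (Real.pi : ℂ) * Complex.I) ^ w with hTd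
    have hT0 : T ≠ 0 := zpow_ne_zero _ Complex.two_pi_I_ne_zero
    obtain ⟨c, C, hc, hmain⟩ := h2 (r * d) (d + 1)
    refine ⟨c, C, hc, fun Ω hΩ x N hx hN => ?_⟩
    refine le_trans ?_ (hmain (Vp T d) (Vp_finite T d) (Vp_rank T d) Ω x N hx hN)
    have hfin : {t : Fin k → ℕ | (∀ i, x i < t i ∧ t i ≤ x i + N) ∧
        Pool.Agent.Results.MP_57341d_ag.HypergeometricOrthogonal.Exceptional (r * d) (Vp T d) e Ω t}.Finite := by
      refine (Set.finite_Iic (fun i : Fin k => x i + N)).subset ?_
      intro t ht i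
      exact (ht.1 i).2
    refine Nat.cast_le.2 (Set.ncard_le_ncard ?_ hfin)
    rintro t ⟨hbox, φ, ⟨F, α, hF, hFd, hα, hcl⟩, hinv⟩
    refine ⟨hbox, ?_⟩
    by_contra hex
    apply hinv
    have ht2 : ∀ i, 2 ≤ t i := fun i => by
      have h3 := (hbox i).1
      have h4 := hx i
      omega
    intro g hg b
    refine invariant_of_relations (n := fun i => (e i).order) (J := fun i => (e i).J) (E := fun i => grp (e i))
      (fun i => grp_CG (he i)) (r := r) (d := d) (T := T) hT0 (Y := fun i => (e i).Y (t i)) (Ω := Ω)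
      (l₀ := fun i => ((Real.log (t i) : ℝ) : ℂ)) ?_ hΩ ?_ F α φ hF hFd hα hcl
      (fun i g hg hg1 => grp_mem (he i) hg hg1) g (fun i => (hg i).1) (fun i => (hg i).2) b
    · intro i
      have h3 := congrArg Matrix.det (hT i (t i) (ht2 i))
      rw [Matrix.det_mul, Matrix.det_mul] at h3
      have h4 : ((e i).Y (t i)).det ≠ 0 := by
        intro h0
        rw [h0, mul_zero] at h3
        exact J_det (he i) h3.symm
      refine ⟨((e i).Y (t i) * Ω i)⁻¹, Matrix.mul_nonsing_inv _ (Ne.isUnit ?_)⟩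
      rw [Matrix.det_mul]
      exact mul_ne_zero h4 (hΩ i)
    · intro P hP1 hP2 hP3 h hh
      by_contra hne
      apply hex
      refine ⟨P, hP1, hP2, ?_, fun i => ((Real.log (t i) : ℝ) : ℂ), fun i => (e i).Y (t i) * h i, fun i => ?_, ?_⟩
      · have e1 : Pool.Agent.Results.MP_57341d_ag.HypergeometricOrthogonal.point
            (fun i => ((Real.log (t i) : ℝ) : ℂ)) (fun i => (e i).Y (t i) * Ω i) =
            ptt (n := fun i => (e i).order) (fun i => ((Real.log (t i) : ℝ) : ℂ)) (fun i => (e i).Y (t i) * Ω i) := by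
          funext v
          obtain ⟨i, _ | p⟩ := v
          · rfl
          · rfl
        rw [e1]
        exact hP3
      · show ((e i).Y (t i) * h i).transpose * (e i).B (1 / (t i : ℂ)) * ((e i).Y (t i) * h i) = (e i).J
        rw [Matrix.transpose_mul]
        calc (h i).transpose * ((e i).Y (t i)).transpose * (e i).B (1 / (t i : ℂ)) * ((e i).Y (t i) * h i)
            = (h i).transpose * (((e i).Y (t i)).transpose * (e i).B (1 / (t i : ℂ)) * (e i).Y (t i)) * h i := by
              simp only [Matrix.mul_assoc]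
          _ = _ := by rw [hT i (t i) (ht2 i), grp_iso (he i) (hh i)]
      · have e1 : Pool.Agent.Results.MP_57341d_ag.HypergeometricOrthogonal.point
            (fun i => ((Real.log (t i) : ℝ) : ℂ)) (fun i => (e i).Y (t i) * h i * Ω i) =
            ptt (n := fun i => (e i).order) (fun i => ((Real.log (t i) : ℝ) : ℂ)) (fun i => (e i).Y (t i) * h i * Ω i) := by
          funext v
          obtain ⟨i, _ | p⟩ := v
          · rfl
          · rfl
        rw [e1]
        exact hne

theorem withTate_unit {r : ℕ} {x : Matrix (Fin r) (Fin r) ℂ} (hx : IsUnit x) {μ : ℂ} (hμ : μ ≠ 0) :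
    IsUnit (withTate x μ) := by
  rw [Matrix.isUnit_iff_isUnit_det] at hx ⊢
  have h1 : (Matrix.of fun _ _ => μ : Matrix Unit Unit ℂ).det = μ := by
    rw [Matrix.det_unique]
    rfl
  unfold withTate
  rw [Matrix.det_fromBlocks_zero₂₁, h1]
  exact hx.mul (isUnit_iff_ne_zero.2 hμ)

theorem withTate_one {r : ℕ} : withTate (1 : Matrix (Fin r) (Fin r) ℂ) 1 = 1 := by
  unfold withTate
  have h1 : (Matrix.of fun _ _ => (1 : ℂ) : Matrix Unit Unit ℂ) = 1 := by
    ext i j
    simp
  rw [h1, fromBlocks_one]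

/-- all tensor spaces, over a fixed number field -/
theorem partB (k : ℕ) (e : Fin k → Eqn) (he : ∀ i, (e i).Admissible) (d r : ℕ) :
    ∃ c C : ℝ, 0 < c ∧ ∀ K : Subfield ℂ, FiniteDimensional ℚ K → Module.finrank ℚ K ≤ d →
      ∀ C₀ : Matrix (Fin r) (Fin r) ℂ, IsUnit C₀ →
      ∀ Ω : (∀ i, Matrix (Fin (e i).order) (Fin (e i).order) ℂ), (∀ i, IsUnit (Ω i)) →
      ∀ (x : Fin k → ℕ) (N : ℕ), (∀ i, 1 ≤ x i) → 1 ≤ N →
      (({t : Fin k → ℕ | (∀ i, x i < t i ∧ t i ≤ x i + N) ∧ ¬ AllInvariant K C₀ e Ω t}.ncard : ℕ) : ℝ) ≤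
        C * (N : ℝ) ^ (k - 1) * ∑ i, (1 + N / ((x i : ℝ) + N) ^ c) := by
  classical
  have hF := fun i => Pool.Agent.Results.MP_57341d_ag.HypergeometricOrthogonal.fam (e i) (he i)
  obtain ⟨c, C, hc, -, hmain⟩ := Run7.h893.TO.hyp_stab' k d (r + 1) (fun i => (e i).order) (fun i => (e i).poly)
    (fun i => (e i).J) (fun i => (e i).B) hF (fun i => by
      rcases h : (e i).odd with _ | _
      · exact Or.inl (J_even (he i) h)
      · refine Or.inr ⟨J_odd (he i) h, ?_⟩
        have h1 : 1 ≤ (e i).m := (he i).1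
        unfold Pool.Agent.Results.MP_57341d_ag.HypergeometricOrthogonal.Eqn.order
        rw [h]
        show 3 ≤ 2 * (e i).m + 1
        omega)
  refine ⟨c, C, hc, ?_⟩
  intro K hKf hKD C₀ hC₀ Ω hΩ x N hx hN
  set S := {t : Fin k → ℕ | (∀ i, x i < t i ∧ t i ≤ x i + N) ∧ ¬ AllInvariant K C₀ e Ω t} with hS
  have hfin : S.Finite := by
    refine (Set.finite_Iic (fun i : Fin k => x i + N)).subset ?_
    intro t ht i
    exact (ht.1 i).2
  rw [Set.ncard_eq_toFinset_card S hfin]
  have h2pi : twoPiI ≠ 0 := Pool.Agent.Y123.GN.tpi_ne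
  have hu := withTate_unit hC₀ h2pi
  refine hmain K hKf hKD (Fin r ⊕ Unit) (withTate C₀ twoPiI) (by simp) hu Ω hΩ x N hx hN _ fun t ht => ?_
  have ht' : t ∈ S := hfin.mem_toFinset.1 ht
  obtain ⟨hbox, hnot⟩ := ht'
  refine ⟨hbox, fun hsta => hnot ?_⟩
  have ht2 : ∀ i, 2 ≤ t i := fun i => by
    have := (hbox i).1
    have := hx i
    omega
  have hper : periodMatrix C₀ e Ω t =
      Pool.Agent.Y123.GN.tot (n := fun i => (e i).order) (withTate C₀ twoPiI) (fun i => (e i).poly) Ω t := by
    unfold periodMatrix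
    have hY : (fun i => ((e i).Y (t i) * Ω i)ᵀ) = Pool.Agent.Y123.GN.cM (n := fun i => (e i).order)
        (fun i => (e i).poly) Ω t := by
      funext i
      unfold Pool.Agent.Y123.GN.cM
      rw [Pool.Agent.Results.MP_57341d_ag.HypergeometricOrthogonal.Y_eq]
    rw [hY]
    rfl
  intro p q a b hab u g hg
  have hT := Pool.Agent.Y123.GN.class_sub (K := K) (M := Index r e) (p := p) (q := q) (fun J => (a J : ℂ))
    (fun I => (b I : ℂ)) (fun J => (a J).2) (fun I => SubfieldClass.ratCast_mem K _)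
  have hPu : IsUnit (periodMatrix C₀ e Ω t) := by
    rw [hper]
    exact Pool.Agent.Y123.GN.EM_isUnit hu (fun i => Pool.Agent.Y123.GN.kum_unit h2pi)
      (fun i => Run7.h893.TO.cM_unit' (n := fun i => (e i).order) hF hΩ ht2 i)
  have h2 := hsta _ hT (by rw [← hper]; exact ⟨hPu, hab⟩) u g (fun i => hg i) _ ⟨hPu, hab⟩
  have h3 := h2.2
  have h5 : Pool.Agent.Y123.GN.EM (1 : Matrix (Fin r ⊕ Unit) (Fin r ⊕ Unit) ℂ) (fun i => Pool.Agent.Y123.GN.uu (u i)) g =
      total 1 1 u g := by
    unfold total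
    rw [withTate_one]
    rfl
  rw [h5, Pool.Agent.Y123.GN.tn_mul, ← Matrix.mulVec_mulVec] at h3
  have h4 : Matrix.mulVec (Pool.Agent.Y123.GN.tn p q (periodMatrix C₀ e Ω t)) (fun J => (a J : ℂ)) =
    fun I => (b I : ℂ) := hab
  rw [h4] at h3
  exact h3

/-- Let `e_i`, `1 ≤ i ≤ k`, be admissible self-dual hypergeometric equations.

0. The polarisation `S_i` corresponds to the matrix `B_i(1/t)` on the de Rham side.

B. For all `d` and `r` there are `c > 0` and `C` such that for every number field `K ⊂ ℂ` of degree `≤ d`, every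
invertible `r × r` matrix `C₀` (the period matrix of `M_0`), all invertible `Ω_i` and every box `∏_i (x_i, x_i + N]` with
`x_i ≥ 1` for all but `C N^(k-1) ∑_i (1 + N / (x_i + N)^c)` integral points `t` of the box all de Rham-Betti classes over
`K` in all tensor spaces of `M_0 ⊕ ℚ(-1) ⊕ ⨁_i (K(t_i) ⊕ M_i(1/t_i))` are invariant under the groups `G_a` and under all
`(g_i)` of determinant one which preserve the polarisations.

A. For all `r`, `w` and `d` there are `c > 0` and `C` such that for all invertible `Ω_i` and all boxes for all but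
`C N^(k-1) ∑_i (1 + N / (x_i + N)^c)` integral points `t` all de Rham-Betti classes in `(⊕_i M_i(1/t_i))^{⊗ r}(w)` over
all number fields of degree at most `d` are invariant under all `(g_i)` of determinant one which preserve the
polarisations. -/
theorem result (k : ℕ) (e : Fin k → Eqn) (he : ∀ i, (e i).Admissible) :
    (∀ (Ω : ∀ i, Matrix (Fin (e i).order) (Fin (e i).order) ℂ) (t : Fin k → ℕ), (∀ i, 2 ≤ t i) →
      (per e Ω t).transpose * (Matrix.blockDiagonal' fun i => (e i).B (1 / (t i : ℂ))) * per e Ω t =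
        Matrix.blockDiagonal' (pol e Ω)) ∧
    (∀ d r : ℕ, ∃ c C : ℝ, 0 < c ∧ ∀ K : Subfield ℂ, FiniteDimensional ℚ K → Module.finrank ℚ K ≤ d →
      ∀ C₀ : Matrix (Fin r) (Fin r) ℂ, IsUnit C₀ →
      ∀ Ω : (∀ i, Matrix (Fin (e i).order) (Fin (e i).order) ℂ), (∀ i, IsUnit (Ω i)) →
      ∀ (x : Fin k → ℕ) (N : ℕ), (∀ i, 1 ≤ x i) → 1 ≤ N →
      (({t : Fin k → ℕ | (∀ i, x i < t i ∧ t i ≤ x i + N) ∧ ¬ AllInvariant K C₀ e Ω t}.ncard : ℕ) : ℝ) ≤
        C * (N : ℝ) ^ (k - 1) * ∑ i, (1 + N / ((x i : ℝ) + N) ^ c)) ∧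
    ∀ (r : ℕ) (w : ℤ) (d : ℕ), ∃ c C : ℝ, 0 < c ∧ ∀ Ω : ∀ i, Matrix (Fin (e i).order) (Fin (e i).order) ℂ,
      (∀ i, (Ω i).det ≠ 0) → ∀ (x : Fin k → ℕ) (N : ℕ), (∀ i, 1 ≤ x i) → 1 ≤ N →
      (({t : Fin k → ℕ | (∀ i, x i < t i ∧ t i ≤ x i + N) ∧
        ∃ φ : (Fin r → Ind e) → ℚ, IsClass (per e Ω t) r w d φ ∧ ¬ Invariant (pol e Ω) φ}.ncard : ℕ) : ℝ) ≤
        C * (N : ℝ) ^ (k - 1) * ∑ i, (1 + N / ((x i : ℝ) + N) ^ c) := by
  obtain ⟨h1, h2⟩ := partA k e he
  exact ⟨h1, partB k e he, h2⟩

end Pool.Agent.Results.MP_bf54cf_ag.HypergeometricAllTensors
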